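import Mathlib
import Pool.Agent.Work.MP_802276_ag.Defs
import Pool.Agent.Work.MP_802276_ag.Gor
import Pool.Agent.Work.MP_802276_ag.NotPure
import Pool.Agent.Work.MP_802276_ag.Pure

set_option autoImplicit false

/-!
F-purity is not `m`-adically stable for `ℚ`-Gorenstein local rings, in any characteristic `p`.

The definitions `FStar`, `FPure`, `IsCanonical`, `reflexivePower`, `QGorenstein` are in
`Pool.Agent.Work.MP_802276_ag.Defs`.

The ring is the localization at the origin of the ring of polynomials in `s, t, z` over `ZMod p`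
whose monomials have degree in `s, t` divisible by three; `x = s ^ 2 * t - s * t ^ 2`, and the
perturbations are `δ = z ^ N`.
-/

namespace Pool.Agent.Results.MP_802276_ag.NotStable

open Pool.Agent.Work.MP_802276_ag IsLocalRing

theorem result (p : ℕ) [Fact p.Prime] :
    ∃ (R : Type) (_ : CommRing R) (_ : IsLocalRing R) (_ : CharP R p), QGorenstein R ∧
      ∃ x ∈ maximalIdeal R, x ∈ nonZeroDivisors R ∧
        (∃ _ : CharP (R ⧸ Ideal.span {x}) p, FPure p (R ⧸ Ideal.span {x})) ∧
        ∀ N : ℕ, ∃ δ ∈ maximalIdeal R ^ N, x + δ ∈ nonZeroDivisors R ∧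
          ∃ _ : CharP (R ⧸ Ideal.span {x + δ}) p, ¬ FPure p (R ⧸ Ideal.span {x + δ}) := by
  have hx0 : s2t p ∈ m0 p := mo_mem_m0 p _ (ex_ne (by decide))
  have hx1 : st2 p ∈ m0 p := mo_mem_m0 p _ (ex_ne (by decide))
  have hz : zz p ∈ m0 p := mo_mem_m0 p _ (ex_ne (by decide))
  have hx : xx p ∈ m0 p := Ideal.sub_mem _ hx0 hx1
  have hxm : φ p (xx p) ∈ maximalIdeal (R p) := mem_max p hx
  have hne : ∀ g : P0 p, MvPolynomial.coeff (ex 2 1 0) (g : P p) ≠ 0 →
      φ p g ∈ nonZeroDivisors (R p) := by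
    intro g hg
    apply mem_nonZeroDivisors_of_ne_zero
    apply phi_ne_zero
    rintro rfl
    exact hg rfl
  have hxc : MvPolynomial.coeff (ex 2 1 0) (xx p : P p) = 1 := by
    classical
    show MvPolynomial.coeff (ex 2 1 0)
      (MvPolynomial.monomial (ex 2 1 0) (1 : ZMod p) - MvPolynomial.monomial (ex 1 2 0) 1) = 1
    have h1 : ex 1 2 0 ≠ ex 2 1 0 := by
      intro h
      have := DFunLike.congr_fun h 0
      simp at this
    rw [MvPolynomial.coeff_sub, MvPolynomial.coeff_monomial, MvPolynomial.coeff_monomial,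
      if_pos rfl, if_neg h1, sub_zero]
  have hspan : ∀ g : R p, g ∈ maximalIdeal (R p) → Ideal.span {g} ≠ ⊤ := by
    intro g hg htop
    have h1 : Ideal.span {g} ≤ maximalIdeal (R p) := by
      rw [Ideal.span_singleton_le_iff_mem]; exact hg
    exact (maximalIdeal.isMaximal (R p)).ne_top (top_le_iff.mp (htop ▸ h1))
  refine ⟨R p, inferInstance, inferInstance, inferInstance, qGorenstein p, φ p (xx p), hxm,
    hne _ (by rw [hxc]; exact one_ne_zero), ?_, ?_⟩
  · have h := charP_quot p (Ideal.span {φ p (xx p)}) (hspan _ hxm)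
    exact ⟨h, fpure p⟩
  · intro N
    have hzm : φ p (zz p) ^ (N + p + 1) ∈ maximalIdeal (R p) ^ N :=
      Ideal.pow_le_pow_right (by omega) (Ideal.pow_mem_pow (mem_max p hz) (N + p + 1))
    have he : φ p (xx p) + φ p (zz p) ^ (N + p + 1) = φ p (yy p (N + p + 1)) := by
      rw [yy, map_add, map_pow]
    have hym : φ p (yy p (N + p + 1)) ∈ maximalIdeal (R p) := by
      rw [← he]
      exact Ideal.add_mem _ hxm (Ideal.pow_mem_of_mem _ (mem_max p hz) _ (by omega))
    have hyc : MvPolynomial.coeff (ex 2 1 0) (yy p (N + p + 1) : P p) ≠ 0 := by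
      classical
      show MvPolynomial.coeff (ex 2 1 0) ((xx p : P p) + ((zz p ^ (N + p + 1) : P0 p) : P p)) ≠ 0
      rw [MvPolynomial.coeff_add, hxc, zz_pow, coe_mo, MvPolynomial.coeff_monomial, if_neg,
        add_zero]
      · exact one_ne_zero
      · intro h
        have := DFunLike.congr_fun h 0
        simp at this
    refine ⟨φ p (zz p) ^ (N + p + 1), hzm, ?_, ?_⟩
    · rw [he]
      exact hne _ hyc
    · rw [he]
      have h := charP_quot p (Ideal.span {φ p (yy p (N + p + 1))}) (hspan _ hym)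
      exact ⟨h, not_fpure p (M := N + p) (by omega)⟩

end Pool.Agent.Results.MP_802276_ag.NotStable
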